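import Pool.Agent.MWLQ.StmtsA

/-!
# Row LEV of squad MWLQ (MP_23468a_al): `P0` gives the light end identity, period `n`
-/

set_option autoImplicit false

namespace Pool.Agent.MWLQ.H15

open Pool.Agent.Helper14_MV
open Pool.Agent.Helper2_MV hiding sep pin
open Pool.Agent.MWK (pre)
open Pool.Agent.MWGN (nn Tau gh)
open Pool.Agent.MWGQ (pw Z Gn E0 A0 P0)
open Pool.Agent.MWLE (pin sep con tl tll Sg t1 Fc Fb Fy Fx Fu Fz rz sf k0)

theorem pw_one (k c : ℕ) : pw k [c] = List.replicate k c := by
  unfold pw
  induction k with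
  | zero => rfl
  | succ k ih => rw [List.replicate_succ, List.replicate_succ, List.flatten_cons, ih]; rfl

theorem flatMap_rep (g : ℕ → List ℕ) (m c x : ℕ) (h : g c = [x]) :
    (List.replicate m c).flatMap g = List.replicate m x := by
  induction m with
  | zero => rfl
  | succ m ih => rw [List.replicate_succ, List.flatMap_cons, ih, h, List.replicate_succ]; rfl

theorem flatMap_rep2 (g : ℕ → List ℕ) (m c x : ℕ) (j : ℕ) (h : g c = List.replicate j x) :
    (List.replicate m c).flatMap g = List.replicate (m * j) x := by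
  induction m with
  | zero => simp
  | succ m ih =>
    rw [List.replicate_succ, List.flatMap_cons, ih, h, List.replicate_append_replicate]
    congr 1
    ring

section

variable {n : ℕ} {β : FIC}

/-- exponents of a letter which occurred before -/
theorem exps (hp : MWGQ.PwxStmt) (hG : Gn n β) (p q : List ℕ) (c a b : ℕ) (hc : c ∈ p) (ha : 1 ≤ a)
    (hb : 1 ≤ b) (hab : a ≡ b [MOD n]) :
    RR β (p ++ (List.replicate a c ++ q)) (p ++ (List.replicate b c ++ q)) := by
  obtain ⟨p1, p2, rfl⟩ := List.append_of_mem hc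
  have h1 := (hp n β hG).2.1 [c] p2 a b ha hb hab
  rw [pw_one, pw_one] at h1
  have h2 := RR.append (RR.refl (β := β) p1) (RR.append h1 (RR.refl (β := β) q))
  simpa using h2

theorem p0_of_k0 (hp : MWGQ.PwxStmt) (hG : Gn n β) (h : k0 β) : P0 n β := by
  have h1 := RR.sub (fun i => if i = 0 then List.replicate n 0 else if i = 2 then [] else
    if i = 3 then [0, 3] else [i]) h
  simp only [List.flatMap_cons, List.flatMap_nil] at h1
  have h2 : RR β (List.replicate n 0 ++ 1 :: (List.replicate n 0 ++ 0 :: [3, 1]))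
      (1 :: (List.replicate n 0 ++ (List.replicate n 0 ++ 0 :: [3, 1]))) := by
    simpa using h1
  have e : ∀ (m : ℕ) (q : List ℕ), List.replicate m 0 ++ 0 :: q = List.replicate (m + 1) 0 ++ q := by
    intro m q
    rw [List.replicate_succ', List.append_assoc]
    rfl
  rw [e, ← List.append_assoc (List.replicate n 0) (List.replicate (n + 1) 0),
    List.replicate_append_replicate] at h2
  have h3 := RR.append (RR.refl (β := β) [0, 2]) h2
  have a1 := exps hp hG ([0, 2] ++ (List.replicate n 0 ++ [1])) [3, 1] 0 (n + 1) 1 (by simp)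
    (by omega) (by omega) (by show (n + 1) % n = 1 % n; rw [Nat.add_mod_left])
  have a2 := exps hp hG [0, 2, 1] [3, 1] 0 (n + (n + 1)) 1 (by simp)
    (by omega) (by omega) (by
      show (n + (n + 1)) % n = 1 % n
      rw [Nat.add_mod_left, Nat.add_mod_left])
  show RR β [0, 2, 1, 0, 3, 1] ([0, 2] ++ (Z n ++ [1, 0, 3, 1]))
  simp only [List.append_assoc, List.cons_append, List.nil_append, List.replicate_one] at a1 a2 h3 ⊢
  exact β.trans (β.symm a2) (β.trans (β.symm h3) a1)

/-- `P0` with words -/
theorem p0w (h : P0 n β) (c : ℕ) (T Y S A B : List ℕ) :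
    RR β (A ++ (c :: (T ++ (Y ++ (c :: (S ++ (Y ++ B)))))))
      (A ++ (c :: (T ++ (List.replicate n c ++ (Y ++ (c :: (S ++ (Y ++ B)))))))) := by
  have h0 : RR β [0, 2, 1, 0, 3, 1] ([0, 2] ++ (Z n ++ [1, 0, 3, 1])) := h
  have h1 := RR.sub (fun i => if i = 0 then [c] else if i = 1 then Y else if i = 2 then T else S) h0
  rw [List.flatMap_append, List.flatMap_append, flatMap_rep _ _ 0 c (by simp)] at h1
  have h2 := RR.append (RR.refl (β := β) A) (RR.append h1 (RR.refl (β := β) B))
  simpa using h2

end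

theorem pin_mod (i : ℕ) : pin i % 5 = 2 := by unfold pin; omega
theorem con_mod (i : ℕ) : con i % 5 = 4 := by unfold con; omega

/-- the list of contents and lights -/
def vv (n m : ℕ) : List ℕ :=
  (List.range m).flatMap (fun i => List.replicate (n + 1) (con i) ++ [pin i])

theorem dq_append (n : ℕ) (Q : ℕ → Bool) (u v : List ℕ) : dq n Q (u ++ v) = dq n Q u ++ dq n Q v :=
  List.flatMap_append ..

theorem vv_succ (n m : ℕ) : vv n (m + 1) = vv n m ++ (List.replicate (n + 1) (con m) ++ [pin m]) := by
  simp [vv, List.range_succ]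

theorem lw4_succ (n : ℕ) (L C : ℕ → ℕ) (m : ℕ) :
    lw4 n L C (m + 1) = lw4 n L C m ++ (List.replicate ((n + 1) * (n + 1)) (C m) ++ [L m]) := by
  simp [lw4, List.range_succ]

/-- the lights are the letters of the class 2 -/
def QQ (c : ℕ) : Bool := decide (c % 5 = 2)

theorem QQ_pin (i : ℕ) : QQ (pin i) = true := by simp [QQ, pin_mod]
theorem QQ_con (i : ℕ) : QQ (con i) = false := by simp [QQ, con_mod]

theorem dq_con (n i : ℕ) : dq n QQ (List.replicate (n + 1) (con i)) =
    List.replicate ((n + 1) * (n + 1)) (con i) :=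
  flatMap_rep2 _ _ _ _ (n + 1) (by simp [QQ_con])

theorem dq_vv (n m : ℕ) : dq n QQ (vv n m) = lw4 n pin con m := by
  induction m with
  | zero => rfl
  | succ m ih =>
    rw [vv_succ, dq_append, ih, lw4_succ, dq_append, dq_con]
    congr 2
    simp [dq, QQ_pin]

theorem filter_con (n i : ℕ) : (List.replicate n (con i)).filter QQ = [] := by
  rw [List.filter_eq_nil_iff]
  intro a ha
  rw [List.eq_of_mem_replicate ha, QQ_con]
  simp

theorem filter_vv (n m : ℕ) : (vv n m).filter QQ = (List.range m).map pin := by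
  induction m with
  | zero => rfl
  | succ m ih =>
    rw [vv_succ, List.filter_append, List.filter_append, filter_con, ih, List.range_succ,
      List.map_append]
    simp [QQ_pin]

theorem lev_aux {n : ℕ} {β : FIC} (hn : 1 ≤ n) (hP : P0 n β) {m : ℕ} {τ : List ℕ} (hT : Tau τ m)
    (hB : BtS n β m) :
    RR β (0 :: (lw4 n pin con (m + 1) ++ (0 :: tll sep pin τ)))
      (List.replicate (n + 1) 0 ++ (lw4 n pin con (m + 1) ++ (0 :: tll sep pin τ))) := by
  obtain ⟨τ1, τ2, hτ⟩ := List.append_of_mem ((hT.2 m).2 (le_refl m))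
  obtain ⟨T1, T2, hTT⟩ : ∃ T1 T2, tll sep pin τ = T1 ++ pin m :: T2 := by
    refine ⟨tll sep pin τ1 ++ [sep m], tll sep pin τ2, ?_⟩
    rw [hτ]
    simp [tll]
  obtain ⟨t, ht⟩ : ∃ t, t = lw4 n pin con m ++ List.replicate ((n + 1) * (n + 1)) (con m) :=
    ⟨_, rfl⟩
  have e1 : ∀ R : List ℕ, lw4 n pin con (m + 1) ++ R = t ++ pin m :: R := by
    intro R
    rw [lw4_succ, ht]
    simp
  have e2 : ∀ R : List ℕ, List.replicate n 0 ++ R = 0 :: (List.replicate (n - 1) 0 ++ R) := by
    intro R
    obtain ⟨j, rfl⟩ : ∃ j, n = j + 1 := ⟨n - 1, by omega⟩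
    simp [List.replicate_succ]
  -- step 1
  have s1 : RR β (0 :: (t ++ pin m :: 0 :: (T1 ++ pin m :: T2)))
      (0 :: (t ++ (List.replicate n 0 ++ pin m :: 0 :: (T1 ++ pin m :: T2)))) := by
    have := p0w hP 0 t [pin m] T1 [] T2
    simpa using this
  -- step 2
  have s2 : RR β (0 :: (t ++ (List.replicate n 0 ++ pin m :: 0 :: (T1 ++ pin m :: T2))))
      (List.replicate (n + 1) 0 ++
        (t ++ (List.replicate n 0 ++ pin m :: 0 :: (T1 ++ pin m :: T2)))) := by
    have hd : dq n QQ (vv n m ++ List.replicate (n + 1) (con m)) = t := by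
      rw [dq_append, dq_vv, dq_con, ht]
    have hf : (vv n m ++ List.replicate (n + 1) (con m)).filter QQ = (List.range m).map pin := by
      rw [List.filter_append, filter_vv, filter_con, List.append_nil]
    have h := hB QQ [] (vv n m ++ List.replicate (n + 1) (con m))
      (List.replicate (n - 1) 0 ++ pin m :: 0 :: (T1 ++ pin m :: T2)) 0
      (by rw [hf]; simp)
      (by
        rw [hf]
        refine List.Nodup.map ?_ List.nodup_range
        intro a b hab
        unfold pin at hab
        omega)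
      (by
        intro c hc hQ
        have h1 : c ∈ (vv n m ++ List.replicate (n + 1) (con m)).filter QQ :=
          List.mem_filter.2 ⟨hc, hQ⟩
        rw [hf, List.mem_map] at h1
        obtain ⟨i, hi, rfl⟩ := h1
        rw [List.mem_range] at hi
        have h2 : pin i ∈ tll sep pin τ := by
          unfold tll
          rw [List.mem_flatMap]
          exact ⟨i, (hT.2 i).2 (by omega), by simp⟩
        rw [hTT] at h2
        exact List.mem_append_right _ (List.mem_cons_of_mem _ (List.mem_cons_of_mem _ h2)))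
    rw [hd] at h
    rw [e2]
    simpa using h
  -- step 3
  have s3 : RR β (List.replicate (n + 1) 0 ++ (t ++ pin m :: 0 :: (T1 ++ pin m :: T2)))
      (List.replicate (n + 1) 0 ++
        (t ++ (List.replicate n 0 ++ pin m :: 0 :: (T1 ++ pin m :: T2)))) := by
    have := p0w hP 0 (List.replicate n 0 ++ t) [pin m] T1 [] T2
    rw [List.replicate_succ]
    simpa using this
  rw [e1, hTT]
  exact β.trans s1 (β.trans s2 (β.symm s3))

/-- row LEV -/
theorem lev (hp : MWGQ.PwxStmt) : LevStmt := by
  intro n β hG m τ hT hB h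
  rcases h with h | h
  · exact lev_aux hG.pos h hT hB
  · exact lev_aux hG.pos (p0_of_k0 hp hG h) hT hB

end Pool.Agent.MWLQ.H15
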